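import Mathlib
import Pool.Agent.Hhelper49.Core9.Defs
import Pool.Agent.Hhelper49.Core9.GridDefs
import Pool.Agent.Hhelper49.Core9.Trans
import Pool.Agent.Hhelper49.Core9.Abel

namespace Pool.Agent.Results.MP_09ab45_co.AbelianOrbits

open Pool.Agent.Hhelper49.Core9

/-- If a Steiner triple system of order `n` has an abelian group of automorphisms such that more
than `n (n + 14) / 3` ordered pairs of points lie in a common orbit, then it contains a grid. -/
theorem result :
    ∀ (n : ℕ) (B : Finset (Finset (Fin n))), IsSTS B →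
      ∀ A : Subgroup (Equiv.Perm (Fin n)), (∀ σ ∈ A, ∀ τ ∈ A, σ * τ = τ * σ) →
        (∀ σ ∈ A, ∀ b ∈ B, b.image σ ∈ B) →
          n * (n + 14) < 3 * {p : Fin n × Fin n | ∃ σ ∈ A, σ p.1 = p.2}.ncard →
            HasGrid B := by
  intro n B hB A hcomm haut hR
  classical
  refine grid_of_abelian hB A hcomm haut ?_
  have e : {p : Fin n × Fin n | ∃ σ ∈ A, σ p.1 = p.2} =
      ((Finset.univ.filter fun p : Fin n × Fin n => ∃ σ ∈ A, σ p.1 = p.2 :
        Finset (Fin n × Fin n)) : Set (Fin n × Fin n)) := by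
    ext p
    simp
  rw [e, Set.ncard_coe_finset] at hR
  rw [Fintype.card_fin]
  convert hR

end Pool.Agent.Results.MP_09ab45_co.AbelianOrbits
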