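import Mathlib
import Pool.Agent.Hhelper49.Core9.Defs
import Pool.Agent.Hhelper49.Core9.Trans
import Pool.Agent.Hhelper49.Core9.Meet
import Pool.Agent.Hhelper66.Fan.Fano

set_option autoImplicit false

namespace Pool.Agent.Results.MP_09ab45_co.PaschPairs

open Pool.Agent.Hhelper49.Core9 Pool.Agent.Hhelper66.Fan

/-- `P` is the point set of a Pasch configuration of `B`: it consists of six distinct points
`a, b, c, x, y, z` such that `abc, xya, yzb, zxc` are triples of `B`. -/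
def IsPasch {V : Type*} [DecidableEq V] (B : Finset (Finset V)) (P : Finset V) : Prop :=
  ∃ a b c x y z : V, [a, b, c, x, y, z].Nodup ∧ P = {a, b, c, x, y, z} ∧
    ({a, b, c} : Finset V) ∈ B ∧ ({x, y, a} : Finset V) ∈ B ∧ ({y, z, b} : Finset V) ∈ B ∧
    ({z, x, c} : Finset V) ∈ B

theorem fano_of_pasch {V : Type*} [Fintype V] [DecidableEq V] {B : Finset (Finset V)}
    (hB : IsSTS B) {m : V → V → V} (hm : OpOf B m) (hc : ¬ ∃ S, NineCore B S) {P : Finset V}
    (hP : IsPasch B P) : ∃ W, IsSubsystem B W ∧ W.card = 7 ∧ P ⊆ W := by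
  obtain ⟨a, b, c, x, y, z, nd, rfl, b1, b2, b3, b4⟩ := hP
  have h := hm.sq
  simp only [List.nodup_cons, List.mem_cons, List.not_mem_nil, or_false, not_or,
    List.nodup_nil, not_false_eq_true, and_true] at nd
  obtain ⟨⟨a1, a2, a3, a4, a5⟩, ⟨c1, c2, c3, c4⟩, ⟨d1, d2, d3⟩, ⟨f1, f2⟩, g1⟩ := nd
  have e1 : m a b = c := hm.uniq a b c a1 (Ne.symm a2) (Ne.symm c1) b1
  have e2 : m x y = a := hm.uniq x y a f1 a3 a4 b2
  have e3 : m y z = b := hm.uniq y z b g1 c3 c4 b3
  have e4 : m z x = c := hm.uniq z x c (Ne.symm f2) d3 d1 b4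
  have q : PQ m a z b x c y := by
    refine ⟨?_, e1, ?_, ?_, e4⟩
    · simp only [List.nodup_cons, List.mem_cons, List.not_mem_nil, or_false, not_or,
        List.nodup_nil, not_false_eq_true, and_true]
      exact ⟨⟨a5, a1, a3, a2, a4⟩, ⟨Ne.symm c4, Ne.symm f2, Ne.symm d3, Ne.symm g1⟩,
        ⟨c2, c1, c3⟩, ⟨Ne.symm d1, f1⟩, d2⟩
    · exact h.rot (h.rot e2)
    · exact h.rot e3
  obtain ⟨W, h1, h2, h3⟩ := fano_of_pq hB hm hc q
  refine ⟨W, h1, h2, fun u hu => h3 ?_⟩
  simp only [Finset.mem_insert, Finset.mem_singleton] at hu ⊢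
  tauto

/-- Two (possibly equal) Pasch configurations with at least two common points that are not
contained in one subsystem of order seven force a 2-core on nine vertices. -/
theorem result :
    ∀ (n : ℕ) (B : Finset (Finset (Fin n))), IsSTS B →
      ∀ P P' : Finset (Fin n), IsPasch B P → IsPasch B P' → 2 ≤ (P ∩ P').card →
        (∀ W, IsSubsystem B W → W.card = 7 → ¬ P ∪ P' ⊆ W) → ∃ S, NineCore B S := by
  intro n B hB P P' hP hP' h2 hW
  by_contra hc
  obtain ⟨m, hm⟩ := hB.exists_op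
  obtain ⟨W, w1, w2, w3⟩ := fano_of_pasch hB hm hc hP
  obtain ⟨W', v1, v2, v3⟩ := fano_of_pasch hB hm hc hP'
  obtain ⟨p, hp, q, hq, hpq⟩ := Finset.one_lt_card.1 (by omega : 1 < (P ∩ P').card)
  rw [Finset.mem_inter] at hp hq
  by_cases e : W = W'
  · subst e
    exact hW W w1 w2 (Finset.union_subset w3 v3)
  · exact hc (fano_meet hm W W' (hm.closed w1) (hm.closed v1) w2 v2 e hpq (w3 hp.1) (v3 hp.2)
      (w3 hq.1) (v3 hq.2))

end Pool.Agent.Results.MP_09ab45_co.PaschPairs
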