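import Mathlib
import Pool.Agent.Hhelper49.Core9.Defs
import Pool.Agent.Hhelper49.Core9.Trans
import Pool.Agent.Hhelper49.Core9.Third
import Pool.Agent.Hhelper66.Fan.Fano

set_option autoImplicit false

namespace Pool.Agent.Results.MP_09ab45_co.SubsystemThird

open Pool.Agent.Hhelper49.Core9 Pool.Agent.Hhelper66.Fan

/-- Let `B` be a Steiner triple system of order `n ≥ 8` with a proper subsystem `W` of at least
`n / 3` points. If the complement of `W` is not the union of two disjoint subsystems with as many
points as `W`, then `B` contains a 2-core on nine vertices. -/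
theorem result :
    ∀ (n : ℕ) (B : Finset (Finset (Fin n))), IsSTS B → 8 ≤ n →
      ∀ W : Finset (Fin n), W ≠ Finset.univ → IsSubsystem B W → n ≤ 3 * W.card →
        (¬ ∃ X Y : Finset (Fin n), IsSubsystem B X ∧ IsSubsystem B Y ∧ X.card = W.card ∧
          Y.card = W.card ∧ Disjoint X Y ∧ X ∪ Y = Wᶜ) →
            ∃ S, NineCore B S := by
  intro n B hB hn W hW hsub hbig hex
  by_contra hc
  obtain ⟨m, hm⟩ := hB.exists_op
  have h := hm.sq
  have hcl := hm.closed hsub
  have hcV : Fintype.card (Fin n) = n := Fintype.card_fin n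
  by_cases h4 : 4 ≤ W.card
  · have h7 := h.seven_le W hcl h4
    obtain ⟨X, Y, hX, hY, h1, h2, h3, h5⟩ := third hm hc W hcl h7 hW (by rw [hcV]; exact hbig)
    exact hex ⟨X, Y, subsystem_of_closed hB hm hX, subsystem_of_closed hB hm hY, h1, h2, h3, h5⟩
  · obtain ⟨a, ha⟩ : W.Nonempty := Finset.card_pos.1 (by omega)
    obtain ⟨k, hk⟩ := even_compl h W hcl ha
    rw [Finset.card_compl, hcV] at hk
    exact hc (core_univ hm (by rw [hcV]; omega))

end Pool.Agent.Results.MP_09ab45_co.SubsystemThird
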