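import Mathlib
import Pool.Agent.Hhelper49.Core9.Defs
import Pool.Agent.Hhelper49.Core9.GridDefs
import Pool.Agent.Hhelper49.Core9.Trans
import Pool.Agent.Hhelper49.Core9.TwoGroup
import Pool.Agent.Hhelper49.Core9.DivFano
import Pool.Agent.Hhelper49.Core9.GridCore

set_option autoImplicit false

namespace Pool.Agent.Results.MP_09ab45_co.TwoGroupFixedPoints

open Pool.Agent.Hhelper49.Core9

/-- Let `B` be a Steiner triple system of order `n ≥ 8` and `Γ` a 2-group of automorphisms of `B`
with exactly `f` common fixed points. Suppose that one of them, `c`, has the property that every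
element of `Γ` which leaves a subsystem of order seven through `c` invariant fixes it pointwise. If
`f ≤ 3` or `f` does not divide `n`, then `B` contains a 2-core on nine vertices. -/
theorem result :
    ∀ (n : ℕ) (B : Finset (Finset (Fin n))), IsSTS B → 8 ≤ n →
      ∀ Γ : Subgroup (Equiv.Perm (Fin n)), IsPGroup 2 Γ →
        (∀ σ ∈ Γ, ∀ b ∈ B, b.image σ ∈ B) →
          (∃ c ∈ commonFixed Γ, ∀ W, IsSubsystem B W → W.card = 7 → c ∈ W →
            ∀ σ ∈ Γ, (∀ x ∈ W, σ x ∈ W) → ∀ x ∈ W, σ x = x) →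
            ((commonFixed Γ).ncard ≤ 3 ∨ ¬ (commonFixed Γ).ncard ∣ n) →
              ∃ S, NineCore B S := by
  rintro n B hB hn Γ h2 haut ⟨c, hcΓ, h7⟩ hor
  obtain ⟨m, hm⟩ := hB.exists_op
  have hhom : ∀ σ ∈ Γ, ∀ x y, σ (m x y) = m (σ x) (σ y) := by
    intro σ hσ x y
    exact hm.hom_of_image σ (haut σ hσ) x y
  rcases hor with h3 | hd
  · exact (hm.hasGrid (hm.sq.grid_of_twoGroup Γ h2 hhom h3 (by rw [Fintype.card_fin]; exact hn)
      (hm.ne_seven hB Γ h2 hhom c hcΓ h7 h3))).core
  · by_contra hc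
    apply hd
    have key := hm.dvd_of_twoGroup hB hc Γ h2 hhom c hcΓ h7
    rwa [Fintype.card_fin] at key

end Pool.Agent.Results.MP_09ab45_co.TwoGroupFixedPoints
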